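import Pool.Agent.helper73.ASU.Spec

set_option autoImplicit false

namespace Pool.Agent.ASU

open Finset

theorem SQ1_inv (x : ℕ) : ∑ a ∈ Icc 1 x, 1 / √(a : ℝ) ≤ 2 * √(x : ℝ) := by
  induction x with
  | zero => simp
  | succ k ih =>
    rw [Finset.sum_Icc_succ_top (by omega)]
    have h0 : (0 : ℝ) < ((k + 1 : ℕ) : ℝ) := by positivity
    have hs : 0 < √((k + 1 : ℕ) : ℝ) := Real.sqrt_pos.2 h0
    have h1 : √(k : ℝ) ≤ √((k + 1 : ℕ) : ℝ) := Real.sqrt_le_sqrt (by push_cast; linarith)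
    have h2 : √((k + 1 : ℕ) : ℝ) * √((k + 1 : ℕ) : ℝ) = k + 1 := by
      rw [Real.mul_self_sqrt h0.le]
      push_cast
      ring
    have h3 : √(k : ℝ) * √(k : ℝ) = k := Real.mul_self_sqrt (Nat.cast_nonneg _)
    have h4 : 0 ≤ √(k : ℝ) := Real.sqrt_nonneg _
    have h5 : 1 / √((k + 1 : ℕ) : ℝ) ≤ 2 * √((k + 1 : ℕ) : ℝ) - 2 * √(k : ℝ) := by
      rw [div_le_iff₀ hs]
      nlinarith
    linarith

theorem SQ1_harm (N : ℕ) (_hN : 1 ≤ N) : ∑ u ∈ Icc 1 N, 1 / (u : ℝ) ≤ 1 + Real.log N := by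
  have h := harmonic_le_one_add_log N
  rw [harmonic_eq_sum_Icc] at h
  push_cast at h
  simpa [one_div] using h

/-- the numbers `n < N` with `d ∣ sfp n` -/
theorem SQ1_fix (hSQA : SQA_stmt) (N d : ℕ) (hN : 1 ≤ N) (hd : 1 ≤ d) :
    ∑ n ∈ (range N).filter (fun n => 1 ≤ n ∧ d ∣ sfp n), 1 / √(sfp n : ℝ) ≤ 2 * √(N : ℝ) / d * (1 + Real.log N) := by
  classical
  have hex : ∀ n : ℕ, ∃ u : ℕ, 1 ≤ n → 1 ≤ u ∧ n = sfp n * u ^ 2 := by
    intro n
    by_cases h : 1 ≤ n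
    · obtain ⟨u, hu1, hu2⟩ := (hSQA.1 n).2.2 h
      exact ⟨u, fun _ => ⟨hu1, hu2⟩⟩
    · exact ⟨0, fun h' => absurd h' h⟩
  choose u hu using hex
  set S := (range N).filter (fun n => 1 ≤ n ∧ d ∣ sfp n) with hS
  set F : (Σ _ : ℕ, ℕ) → ℝ := fun x => 1 / √((d * x.2 : ℕ) : ℝ) with hF
  have hSm : ∀ n ∈ S, n < N ∧ 1 ≤ n ∧ d ∣ sfp n := by
    intro n hn
    rw [hS, mem_filter, mem_range] at hn
    exact hn
  have e1 : ∑ n ∈ S, 1 / √(sfp n : ℝ) = ∑ n ∈ S, F ⟨u n, sfp n / d⟩ := by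
    refine Finset.sum_congr rfl fun n hn => ?_
    rw [hF]
    show 1 / √(sfp n : ℝ) = 1 / √((d * (sfp n / d) : ℕ) : ℝ)
    rw [Nat.mul_div_cancel' (hSm n hn).2.2]
  have hinj : Set.InjOn (fun n => (⟨u n, sfp n / d⟩ : Σ _ : ℕ, ℕ)) (S : Set ℕ) := by
    intro n hn n' hn' h
    have hn2 := hSm n hn
    have hn2' := hSm n' hn'
    simp only [Sigma.mk.injEq, heq_eq_eq] at h
    obtain ⟨h1, h2⟩ := h
    have h3 : sfp n = sfp n' := by
      rw [← Nat.mul_div_cancel' hn2.2.2, ← Nat.mul_div_cancel' hn2'.2.2, h2]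
    rw [(hu n hn2.2.1).2, (hu n' hn2'.2.1).2, h1, h3]
  have e2 : ∑ n ∈ S, F ⟨u n, sfp n / d⟩ = ∑ x ∈ S.image (fun n => (⟨u n, sfp n / d⟩ : Σ _ : ℕ, ℕ)), F x :=
    (Finset.sum_image hinj).symm
  have e3 : S.image (fun n => (⟨u n, sfp n / d⟩ : Σ _ : ℕ, ℕ)) ⊆ (Icc 1 N).sigma (fun u => Icc 1 (N / (d * u ^ 2))) := by
    intro x hx
    rw [mem_image] at hx
    obtain ⟨n, hn, rfl⟩ := hx
    obtain ⟨h1, h2, h3⟩ := hSm n hn
    obtain ⟨h4, h5⟩ := hu n h2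
    have h6 : 1 ≤ sfp n := (hSQA.1 n).1
    have h7 : d * (sfp n / d) = sfp n := Nat.mul_div_cancel' h3
    rw [mem_sigma, mem_Icc, mem_Icc]
    refine ⟨⟨h4, ?_⟩, ?_, ?_⟩
    · show u n ≤ N
      have : u n ≤ sfp n * u n ^ 2 := by
        calc u n ≤ u n ^ 2 := by nlinarith
          _ = 1 * u n ^ 2 := (one_mul _).symm
          _ ≤ sfp n * u n ^ 2 := Nat.mul_le_mul_right _ h6
      omega
    · show 1 ≤ sfp n / d
      rcases Nat.eq_zero_or_pos (sfp n / d) with h | h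
      · rw [h, mul_zero] at h7; omega
      · exact h
    · show sfp n / d ≤ N / (d * u n ^ 2)
      rw [Nat.le_div_iff_mul_le (by positivity)]
      calc sfp n / d * (d * u n ^ 2) = d * (sfp n / d) * u n ^ 2 := by ring
        _ = n := by rw [h7, ← h5]
        _ ≤ N := h1.le
  have hdr : (0 : ℝ) < d := by exact_mod_cast hd
  rw [e1, e2]
  refine (Finset.sum_le_sum_of_subset_of_nonneg e3 (fun x _ _ => ?_)).trans ?_
  · rw [hF]
    positivity
  rw [Finset.sum_sigma]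
  have e4 : ∀ u ∈ Icc 1 N, ∑ a ∈ Icc 1 (N / (d * u ^ 2)), F ⟨u, a⟩ ≤ 2 * √(N : ℝ) / d * (1 / u) := by
    intro u hu'
    rw [mem_Icc] at hu'
    have hur : (0 : ℝ) < u := by exact_mod_cast hu'.1
    have h1 : ∀ a : ℕ, F ⟨u, a⟩ = 1 / √(d : ℝ) * (1 / √(a : ℝ)) := by
      intro a
      rw [hF]
      show 1 / √((d * a : ℕ) : ℝ) = _
      rw [Nat.cast_mul, Real.sqrt_mul hdr.le, one_div_mul_one_div]
    have h2 : ∑ a ∈ Icc 1 (N / (d * u ^ 2)), F ⟨u, a⟩ = 1 / √(d : ℝ) * ∑ a ∈ Icc 1 (N / (d * u ^ 2)), 1 / √(a : ℝ) := by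
      rw [Finset.mul_sum]
      exact Finset.sum_congr rfl fun a _ => h1 a
    rw [h2]
    have h3 : √((N / (d * u ^ 2) : ℕ) : ℝ) ≤ √(N : ℝ) / (√(d : ℝ) * u) := by
      have h4 : ((N / (d * u ^ 2) : ℕ) : ℝ) ≤ (N : ℝ) / (d * u ^ 2) := by
        have := @Nat.cast_div_le ℝ _ _ _ N (d * u ^ 2)
        push_cast at this
        exact this
      refine (Real.sqrt_le_sqrt h4).trans (le_of_eq ?_)
      rw [Real.sqrt_div (Nat.cast_nonneg _), Real.sqrt_mul hdr.le, Real.sqrt_sq hur.le]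
    have hsd : 0 < √(d : ℝ) := Real.sqrt_pos.2 hdr
    have hsd2 : √(d : ℝ) * √(d : ℝ) = d := Real.mul_self_sqrt hdr.le
    calc 1 / √(d : ℝ) * ∑ a ∈ Icc 1 (N / (d * u ^ 2)), 1 / √(a : ℝ)
        ≤ 1 / √(d : ℝ) * (2 * (√(N : ℝ) / (√(d : ℝ) * u))) := by
          refine mul_le_mul_of_nonneg_left ((SQ1_inv _).trans ?_) (by positivity)
          exact mul_le_mul_of_nonneg_left h3 (by norm_num)
      _ = 2 * √(N : ℝ) / (√(d : ℝ) * √(d : ℝ)) * (1 / u) := by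
          field_simp
      _ = 2 * √(N : ℝ) / d * (1 / u) := by rw [hsd2]
  refine (Finset.sum_le_sum e4).trans ?_
  rw [← Finset.mul_sum]
  exact mul_le_mul_of_nonneg_left (SQ1_harm N hN) (by positivity)

theorem SQ1_one (hSQA : SQA_stmt) (N m : ℕ) (hN : 1 ≤ N) (hm : 1 ≤ m) :
    ∑ n ∈ range N, wf n m ≤ 2 * √(N : ℝ) * (m.divisors.card : ℝ) * (1 + Real.log N) := by
  classical
  have h1 : ∀ n ∈ range N, wf n m ≤ ∑ d ∈ m.divisors, if 1 ≤ n ∧ d ∣ sfp n then (d : ℝ) * (1 / √(sfp n : ℝ)) else 0 := by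
    intro n _
    unfold wf
    have hnn : ∀ d ∈ m.divisors, (0 : ℝ) ≤ if 1 ≤ n ∧ d ∣ sfp n then (d : ℝ) * (1 / √(sfp n : ℝ)) else 0 := by
      intro d _
      split_ifs
      · positivity
      · exact le_refl _
    split_ifs with hn
    · exact Finset.sum_nonneg hnn
    · have hmem : Nat.gcd (sfp n) m ∈ m.divisors := by
        rw [Nat.mem_divisors]
        exact ⟨Nat.gcd_dvd_right _ _, by omega⟩
      refine le_trans (le_of_eq ?_) (Finset.single_le_sum hnn hmem)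
      rw [if_pos ⟨by omega, Nat.gcd_dvd_left _ _⟩]
      ring
  refine (Finset.sum_le_sum h1).trans ?_
  rw [Finset.sum_comm]
  have h2 : ∀ d ∈ m.divisors, (∑ n ∈ range N, if 1 ≤ n ∧ d ∣ sfp n then (d : ℝ) * (1 / √(sfp n : ℝ)) else 0) ≤
      2 * √(N : ℝ) * (1 + Real.log N) := by
    intro d hd
    have hd1 : 1 ≤ d := Nat.pos_of_mem_divisors hd
    have hdr : (0 : ℝ) < d := by exact_mod_cast hd1
    rw [← Finset.sum_filter, ← Finset.mul_sum]
    refine (mul_le_mul_of_nonneg_left (SQ1_fix hSQA N d hN hd1) hdr.le).trans (le_of_eq ?_)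
    field_simp
  refine (Finset.sum_le_sum h2).trans (le_of_eq ?_)
  rw [Finset.sum_const, nsmul_eq_mul]
  ring

theorem SQ1 (hSQA : SQA_stmt) : SQ1_stmt := by
  classical
  intro N m v hN hm hv
  have hmaps : ∀ w ∈ range N, dst v w ∈ range N := by
    intro w hw
    rw [mem_range] at hw ⊢
    unfold dst
    omega
  rw [← Finset.sum_fiberwise_of_maps_to hmaps]
  have h1 : ∀ n ∈ range N, ∑ w ∈ range N with dst v w = n, wf (dst v w) m ≤ 2 * wf n m := by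
    intro n _
    have e1 : ∑ w ∈ range N with dst v w = n, wf (dst v w) m = ∑ w ∈ range N with dst v w = n, wf n m := by
      refine Finset.sum_congr rfl fun w hw => ?_
      rw [(mem_filter.1 hw).2]
    rw [e1, Finset.sum_const, nsmul_eq_mul]
    have h0 : 0 ≤ wf n m := by
      unfold wf
      split_ifs
      · exact le_refl _
      · positivity
    refine mul_le_mul_of_nonneg_right ?_ h0
    have hsub : (range N).filter (fun w => dst v w = n) ⊆ {v - n, v + n} := by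
      intro w hw
      have h2 := (mem_filter.1 hw).2
      unfold dst at h2
      rw [mem_insert, mem_singleton]
      omega
    have := (Finset.card_le_card hsub).trans Finset.card_le_two
    exact_mod_cast this
  refine (Finset.sum_le_sum h1).trans ?_
  rw [← Finset.mul_sum]
  have := SQ1_one hSQA N m hN hm
  linarith

end Pool.Agent.ASU
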