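import Pool.Agent.helper73.ASU.Spec

set_option autoImplicit false

namespace Pool.Agent.ASU

open Finset

/-- the forward weight -/
noncomputable def SQ3_F {J : ℕ} (n : Fin (J + 1) → ℕ) : ℝ :=
  ∏ j, ((Nat.gcd (sfp (n j)) (∏ i ∈ Iio j, sfp (n i)) : ℕ) : ℝ) / √(sfp (n j) : ℝ)

/-- the backward weight -/
noncomputable def SQ3_B {J : ℕ} (n : Fin (J + 1) → ℕ) : ℝ :=
  ∏ j, ((Nat.gcd (sfp (n j)) (∏ i ∈ Ioi j, sfp (n i)) : ℕ) : ℝ) / √(sfp (n j) : ℝ)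

theorem SQ3_FB (hSQA : SQA_stmt) {J : ℕ} (n : Fin (J + 1) → ℕ) (h0 : ∏ j, n j ≠ 0) (hsq : IsSquare (∏ j, n j)) :
    1 ≤ SQ3_F n * SQ3_B n := by
  unfold SQ3_F SQ3_B
  rw [← Finset.prod_mul_distrib]
  calc (1 : ℝ) = ∏ _j : Fin (J + 1), (1 : ℝ) := by simp
    _ ≤ _ := by
      refine Finset.prod_le_prod (fun _ _ => zero_le_one) fun j _ => ?_
      have hA : 1 ≤ sfp (n j) := (hSQA.1 (n j)).1
      have hAr : (0 : ℝ) < sfp (n j) := by exact_mod_cast hA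
      have hdvd := hSQA.2 (J + 1) n h0 hsq j
      have hD : 0 < Nat.gcd (sfp (n j)) (∏ i ∈ Iio j, sfp (n i)) := Nat.gcd_pos_of_pos_left _ hA
      have hE : 0 < Nat.gcd (sfp (n j)) (∏ i ∈ Ioi j, sfp (n i)) := Nat.gcd_pos_of_pos_left _ hA
      have hle : sfp (n j) ≤ Nat.gcd (sfp (n j)) (∏ i ∈ Iio j, sfp (n i)) * Nat.gcd (sfp (n j)) (∏ i ∈ Ioi j, sfp (n i)) :=
        Nat.le_of_dvd (Nat.mul_pos hD hE) hdvd
      rw [div_mul_div_comm, Real.mul_self_sqrt hAr.le, le_div_iff₀ hAr, one_mul]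
      exact_mod_cast hle

theorem SQ3_sfp_le (hSQA : SQA_stmt) (n : ℕ) (hn : 1 ≤ n) : sfp n ≤ n := by
  obtain ⟨u, hu1, hu2⟩ := (hSQA.1 n).2.2 hn
  calc sfp n = sfp n * 1 := (mul_one _).symm
    _ ≤ sfp n * u ^ 2 := Nat.mul_le_mul_left _ (Nat.one_le_pow _ _ hu1)
    _ = n := hu2.symm

theorem SQ3_pw_nonneg {J : ℕ} (v : Fin (J + 1) → ℕ) : 0 ≤ pw v := by
  unfold pw
  refine Finset.prod_nonneg fun j _ => ?_
  unfold wf
  split_ifs
  · exact le_refl _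
  · positivity

theorem SQ3_fwd (hSQA : SQA_stmt) {J N : ℕ} (v : Fin (J + 1) → ℕ) (hv : ∀ j, v j < N) (h0 : ∀ j, dst (v j) (rot v j) ≠ 0) :
    SQ3_F (fun j => dst (v j) (rot v j)) ≤ √(N : ℝ) * pw v := by
  unfold SQ3_F
  rw [Fin.prod_univ_castSucc, mul_comm (√(N : ℝ))]
  have hrot : ∀ j : Fin J, rot v j.castSucc = v j.succ := by
    intro j
    unfold rot
    rw [finRotate_succ_apply, Fin.coeSucc_eq_succ]
  have e1 : ∏ j : Fin J, ((Nat.gcd (sfp (dst (v j.castSucc) (rot v j.castSucc))) (∏ i ∈ Iio j.castSucc, sfp (dst (v i) (rot v i))) : ℕ) : ℝ) /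
      √(sfp (dst (v j.castSucc) (rot v j.castSucc)) : ℝ) = pw v := by
    unfold pw
    refine Finset.prod_congr rfl fun j _ => ?_
    have e2 : ∏ i ∈ Iio j.castSucc, sfp (dst (v i) (rot v i)) = ∏ i ∈ Iio j, sfp (dst (v i.castSucc) (v i.succ)) := by
      rw [← Fin.map_castSuccEmb_Iio, Finset.prod_map]
      refine Finset.prod_congr rfl fun i _ => ?_
      show sfp (dst (v i.castSucc) (rot v i.castSucc)) = _
      rw [hrot]
    have h1 := h0 j.castSucc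
    rw [e2]
    rw [hrot] at h1 ⊢
    unfold wf
    rw [if_neg h1]
  rw [e1]
  refine mul_le_mul_of_nonneg_left ?_ (SQ3_pw_nonneg v)
  have hn0 := h0 (Fin.last J)
  have hnN : dst (v (Fin.last J)) (rot v (Fin.last J)) ≤ N := by
    have h1 := hv (Fin.last J)
    have h2 : rot v (Fin.last J) < N := hv _
    unfold dst
    omega
  have hA : 1 ≤ sfp (dst (v (Fin.last J)) (rot v (Fin.last J))) := (hSQA.1 _).1
  have hAr : (0 : ℝ) < sfp (dst (v (Fin.last J)) (rot v (Fin.last J))) := by exact_mod_cast hA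
  have hAN : ((sfp (dst (v (Fin.last J)) (rot v (Fin.last J))) : ℕ) : ℝ) ≤ N := by
    exact_mod_cast (SQ3_sfp_le hSQA _ (Nat.one_le_iff_ne_zero.2 hn0)).trans hnN
  have hD : ((Nat.gcd (sfp (dst (v (Fin.last J)) (rot v (Fin.last J)))) (∏ i ∈ Iio (Fin.last J), sfp (dst (v i) (rot v i))) : ℕ) : ℝ) ≤
      sfp (dst (v (Fin.last J)) (rot v (Fin.last J))) := by
    exact_mod_cast Nat.gcd_le_left _ hA
  calc _ ≤ ((sfp (dst (v (Fin.last J)) (rot v (Fin.last J))) : ℕ) : ℝ) / √(sfp (dst (v (Fin.last J)) (rot v (Fin.last J))) : ℝ) :=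
        div_le_div_of_nonneg_right hD (Real.sqrt_nonneg _)
    _ = √(sfp (dst (v (Fin.last J)) (rot v (Fin.last J))) : ℝ) := Real.div_sqrt
    _ ≤ √(N : ℝ) := Real.sqrt_le_sqrt hAN

theorem SQ3_rev {J : ℕ} (n : Fin (J + 1) → ℕ) : SQ3_B n = SQ3_F (fun j => n (Fin.rev j)) := by
  unfold SQ3_B SQ3_F
  rw [← Equiv.prod_comp Fin.revPerm]
  refine Finset.prod_congr rfl fun j _ => ?_
  have e : ∏ i ∈ Ioi (Fin.revPerm j), sfp (n i) = ∏ i ∈ Iio j, sfp (n (Fin.rev i)) := by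
    rw [Fin.revPerm_apply, ← Fin.map_revPerm_Iio, Finset.prod_map]
    rfl
  rw [e, Fin.revPerm_apply]

/-- `i ↦ rev i + 1` -/
def SQ3_sig (J : ℕ) : Equiv.Perm (Fin (J + 1)) := Fin.revPerm.trans (finRotate (J + 1))

theorem SQ3_sig_apply {J : ℕ} (i : Fin (J + 1)) : SQ3_sig J i = finRotate (J + 1) (Fin.rev i) := rfl

theorem SQ3_sig_rot {J : ℕ} (i : Fin (J + 1)) : SQ3_sig J (finRotate (J + 1) i) = Fin.rev i := by
  rw [SQ3_sig_apply]
  by_cases h : (i : ℕ) < J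
  · have h1 : i = ⟨(i : ℕ), h.trans_le J.le_succ⟩ := rfl
    rw [h1, finRotate_of_lt h]
    have h2 : Fin.rev (⟨(i : ℕ) + 1, Nat.succ_lt_succ h⟩ : Fin (J + 1)) = ⟨J - (i + 1), by omega⟩ := by
      ext
      simp [Fin.val_rev]
    rw [h2, finRotate_of_lt (by omega)]
    ext
    simp [Fin.val_rev]
    omega
  · have h1 : i = Fin.last J := by
      ext
      simp
      omega
    rw [h1, finRotate_last]
    have h2 : Fin.rev (0 : Fin (J + 1)) = Fin.last J := by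
      ext
      simp [Fin.val_rev]
    rw [h2, finRotate_last]
    ext
    simp [Fin.val_rev]

theorem SQ3_dst_comm (x y : ℕ) : dst x y = dst y x := by
  unfold dst
  omega

theorem SQ3_edges {J : ℕ} (v : Fin (J + 1) → ℕ) (i : Fin (J + 1)) :
    dst ((v ∘ SQ3_sig J) i) (rot (v ∘ SQ3_sig J) i) = dst (v (Fin.rev i)) (rot v (Fin.rev i)) := by
  unfold rot
  show dst (v (SQ3_sig J i)) (v (SQ3_sig J (finRotate (J + 1) i))) = _
  rw [SQ3_sig_rot, SQ3_sig_apply, SQ3_dst_comm]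

theorem SQ3 (hSQA : SQA_stmt) (hSQ2 : SQ2_stmt) : SQ3_stmt := by
  classical
  intro L hL ε hε
  obtain ⟨J, rfl⟩ : ∃ J, L = J + 1 := ⟨L - 1, by omega⟩
  obtain ⟨C, hC, hb⟩ := hSQ2 J ε hε
  refine ⟨C, hC, fun N hN S hS => ?_⟩
  have hNr : (0 : ℝ) < N := by exact_mod_cast hN
  -- every walk of `S` is counted
  have h1 : ∀ v ∈ S, (2 : ℝ) ≤ √(N : ℝ) * pw v + √(N : ℝ) * pw (v ∘ SQ3_sig J) := by
    intro v hv
    obtain ⟨g1, g2, g3⟩ := hS v hv
    have g4 : ∀ j, dst (v j) (rot v j) ≠ 0 := fun j => Finset.prod_ne_zero_iff.1 g2 j (mem_univ j)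
    have f1 := SQ3_fwd hSQA v g1 g4
    have f2 : SQ3_F (fun j => dst ((v ∘ SQ3_sig J) j) (rot (v ∘ SQ3_sig J) j)) ≤ √(N : ℝ) * pw (v ∘ SQ3_sig J) := by
      refine SQ3_fwd hSQA (v ∘ SQ3_sig J) (fun j => g1 _) fun j => ?_
      rw [SQ3_edges]
      exact g4 _
    have f3 : SQ3_F (fun j => dst ((v ∘ SQ3_sig J) j) (rot (v ∘ SQ3_sig J) j)) = SQ3_B (fun j => dst (v j) (rot v j)) := by
      rw [SQ3_rev]
      congr 1
      funext j
      exact SQ3_edges v j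
    have f4 := SQ3_FB hSQA (fun j => dst (v j) (rot v j)) g2 g3
    rw [f3] at f2
    have f5 : 0 ≤ SQ3_F (fun j => dst (v j) (rot v j)) := by
      unfold SQ3_F
      positivity
    have f6 : 0 ≤ SQ3_B (fun j => dst (v j) (rot v j)) := by
      unfold SQ3_B
      positivity
    nlinarith [sq_nonneg (SQ3_F (fun j => dst (v j) (rot v j)) - SQ3_B (fun j => dst (v j) (rot v j)))]
  have hsub : S ⊆ wd (J + 1) (range N) := by
    intro v hv
    rw [Fintype.mem_piFinset]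
    intro j
    rw [mem_range]
    exact (hS v hv).1 j
  have h2 : ∑ v ∈ S, pw v ≤ ∑ v ∈ wd (J + 1) (range N), pw v :=
    Finset.sum_le_sum_of_subset_of_nonneg hsub fun v _ _ => SQ3_pw_nonneg v
  have hinj : Function.Injective (fun v : Fin (J + 1) → ℕ => v ∘ SQ3_sig J) :=
    (SQ3_sig J).surjective.injective_comp_right
  have h3 : ∑ v ∈ S, pw (v ∘ SQ3_sig J) ≤ ∑ v ∈ wd (J + 1) (range N), pw v := by
    have e1 : ∑ v ∈ S, pw (v ∘ SQ3_sig J) = ∑ x ∈ S.image (fun v : Fin (J + 1) → ℕ => v ∘ SQ3_sig J), pw x :=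
      (Finset.sum_image (f := fun x => pw x) (fun _ _ _ _ h => hinj h)).symm
    rw [e1]
    refine Finset.sum_le_sum_of_subset_of_nonneg ?_ fun v _ _ => SQ3_pw_nonneg v
    intro x hx
    obtain ⟨v, hv, rfl⟩ := mem_image.1 hx
    rw [Fintype.mem_piFinset]
    intro j
    rw [mem_range]
    exact (hS v hv).1 _
  have h4 : (S.card : ℝ) * 2 ≤ ∑ v ∈ S, (√(N : ℝ) * pw v + √(N : ℝ) * pw (v ∘ SQ3_sig J)) := by
    rw [← nsmul_eq_mul, ← Finset.sum_const]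
    exact Finset.sum_le_sum h1
  rw [Finset.sum_add_distrib, ← Finset.mul_sum, ← Finset.mul_sum] at h4
  have hs0 : 0 ≤ √(N : ℝ) := Real.sqrt_nonneg _
  have h5 : (S.card : ℝ) ≤ √(N : ℝ) * (C * (N : ℝ) ^ (1 + (J : ℝ) / 2 + ε)) := by
    have h6 := mul_le_mul_of_nonneg_left (h2.trans (hb N hN)) hs0
    have h7 := mul_le_mul_of_nonneg_left (h3.trans (hb N hN)) hs0
    linarith
  refine h5.trans (le_of_eq ?_)
  rw [Real.sqrt_eq_rpow, mul_left_comm, ← Real.rpow_add hNr]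
  congr 2
  push_cast
  ring

end Pool.Agent.ASU
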